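import Mathlib

/-!
# The Kuratowski topologization over the box metric is not Hausdorff
-/

open Filter Topology TopologicalSpace Set MeasureTheory

open scoped ENNReal NNReal

namespace Pool.Agent.Results.MP_3b4475_gt.NotHausdorff

universe v

/-- An mm-space: a complete separable metric space with a Borel probability measure. -/
structure MMSpace : Type 1 where
  /-- the underlying set -/
  carrier : Type
  [metric : MetricSpace carrier]
  [complete : CompleteSpace carrier]
  [separable : SeparableSpace carrier]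
  [measurable : MeasurableSpace carrier]
  [borel : BorelSpace carrier]
  /-- the measure -/
  μ : Measure carrier
  [prob : IsProbabilityMeasure μ]

attribute [instance] MMSpace.metric MMSpace.complete MMSpace.separable MMSpace.measurable
  MMSpace.borel MMSpace.prob

/-- Two mm-spaces are identified when there is a measure preserving isometry between the supports
of their measures. -/
def Iso (X Y : MMSpace) : Prop :=
  ∃ f : X.μ.support → Y.μ.support, Isometry f ∧
    Measure.map f (X.μ.comap Subtype.val) = Y.μ.comap Subtype.val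

/-- The set of all classes of mm-spaces. -/
def Classes : Type 1 := Quot Iso

/-- The class of an mm-space. -/
def cls (X : MMSpace) : Classes := Quot.mk _ X

/-- The interval `[0,1)`. -/
abbrev I01 : Type := Set.Ico (0 : ℝ) 1

/-- Lebesgue measure on `[0,1)`. -/
noncomputable def leb : Measure I01 := (volume : Measure ℝ).comap Subtype.val

/-- Parameters of an mm-space. -/
def IsParameter (X : MMSpace) (φ : I01 → X.carrier) : Prop :=
  Measurable φ ∧ Measure.map φ leb = X.μ

/-- The condition on `ε` in the definition of the box distance. -/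
def BoxBound (X Y : MMSpace) (ε : ℝ≥0) : Prop :=
  ∃ (φ : I01 → X.carrier) (ψ : I01 → Y.carrier) (I₀ : Set I01), IsParameter X φ ∧
    IsParameter Y ψ ∧ MeasurableSet I₀ ∧ 1 - (ε : ℝ≥0∞) ≤ leb I₀ ∧
    ∀ s ∈ I₀, ∀ t ∈ I₀, |dist (φ s) (φ t) - dist (ψ s) (ψ t)| ≤ ε

/-- The box distance: the infimum of all `ε` as in `BoxBound`. -/
noncomputable def boxDist (X Y : MMSpace) : ℝ≥0∞ := ⨅ (ε : ℝ≥0) (_ : BoxBound X Y ε), (ε : ℝ≥0∞)

/-- The topology of the box distance on the set of classes: a set is open iff with the class of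
every mm-space `X` it contains the classes of all mm-spaces at box distance less than some
`ε > 0` from `X`. -/
instance : TopologicalSpace Classes where
  IsOpen U := ∀ X : MMSpace, cls X ∈ U → ∃ ε > 0, ∀ Y : MMSpace, boxDist X Y < ε → cls Y ∈ U
  isOpen_univ := fun _ _ => ⟨1, one_pos, fun _ _ => trivial⟩
  isOpen_inter := by
    intro U V hU hV X hX
    obtain ⟨ε₁, h₁, hU'⟩ := hU X hX.1
    obtain ⟨ε₂, h₂, hV'⟩ := hV X hX.2
    exact ⟨min ε₁ ε₂, lt_min h₁ h₂, fun Y hY => ⟨hU' Y (lt_of_lt_of_le hY (min_le_left _ _)),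
      hV' Y (lt_of_lt_of_le hY (min_le_right _ _))⟩⟩
  isOpen_sUnion := by
    intro S hS X hX
    obtain ⟨U, hU, hXU⟩ := hX
    obtain ⟨ε, hε, h⟩ := hS U hU X hXU
    exact ⟨ε, hε, fun Y hY => ⟨U, hU, h Y hY⟩⟩

/-- Lower limit of a net of closed sets. -/
def Li {ι : Type v} [Preorder ι] (A : ι → Closeds Classes) : Set Classes :=
  {x | ∀ U ∈ 𝓝 x, ∀ᶠ i in atTop, ((A i : Set Classes) ∩ U).Nonempty}

/-- Upper limit of a net of closed sets. -/
def Ls {ι : Type v} [Preorder ι] (A : ι → Closeds Classes) : Set Classes :=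
  {x | ∀ U ∈ 𝓝 x, ∃ᶠ i in atTop, ((A i : Set Classes) ∩ U).Nonempty}

/-- Kuratowski–Painlevé convergence of a net of closed sets. -/
def KPConverges {ι : Type v} [Preorder ι] (A : ι → Closeds Classes) (B : Closeds Classes) : Prop :=
  Ls A ⊆ B ∧ (B : Set Classes) ⊆ Li A

/-- The topologization of Kuratowski–Painlevé convergence (for nets indexed by directed sets of
an arbitrary fixed universe): the finest topology in which every net which converges in the
sense of Kuratowski–Painlevé converges to its limit. A set is open iff every net converging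
to a member of the set in the sense of Kuratowski–Painlevé is eventually in the set. -/
@[instance_reducible]
def tauK : TopologicalSpace (Closeds Classes) where
  IsOpen 𝒰 := ∀ (ι : Type v) [Preorder ι] [IsDirectedOrder ι] [Nonempty ι]
    (A : ι → Closeds Classes) (B : Closeds Classes), KPConverges A B → B ∈ 𝒰 →
      ∀ᶠ i in atTop, A i ∈ 𝒰
  isOpen_univ := fun _ _ _ _ _ _ _ _ => Eventually.of_forall fun _ => trivial
  isOpen_inter := by
    intro U V hU hV ι _ _ _ A B hAB hB
    exact (hU ι A B hAB hB.1).and (hV ι A B hAB hB.2)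
  isOpen_sUnion := by
    intro S hS ι _ _ _ A B hAB hB
    obtain ⟨U, hU, hBU⟩ := hB
    exact (hS U hU ι A B hAB hBU).mono fun i hi => ⟨U, hU, hi⟩

/-! ## Concentration sets -/

/-- There is a measurable set of mass more than `c` with all distances at most `r`. -/
def Q (r c : ℝ) (X : MMSpace) : Prop :=
  ∃ S : Set X.carrier, MeasurableSet S ∧ (∀ x ∈ S, ∀ y ∈ S, dist x y ≤ r) ∧ c < X.μ.real S

theorem leb_lt {a : ℝ} (h1 : a ≤ 1) : leb {s : I01 | (s : ℝ) < a} =
    ENNReal.ofReal a := by
  unfold leb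
  rw [(MeasurableEmbedding.subtype_coe measurableSet_Ico).comap_apply]
  have : Subtype.val '' {s : I01 | (s : ℝ) < a} = Set.Ico (0 : ℝ) a := by
    ext x
    constructor
    · rintro ⟨s, hs, rfl⟩
      exact ⟨s.2.1, hs⟩
    · intro hx
      exact ⟨⟨x, hx.1, hx.2.trans_le h1⟩, hx.2, rfl⟩
  rw [this, Real.volume_Ico, sub_zero]

theorem leb_univ : leb (univ : Set I01) = 1 := by
  have h : (univ : Set I01) = {s : I01 | (s : ℝ) < 1} := by
    ext s; simp only [mem_univ, true_iff]; exact s.2.2
  rw [h, leb_lt le_rfl, ENNReal.ofReal_one]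

instance : IsProbabilityMeasure leb := ⟨leb_univ⟩

theorem BoxBound.symm {X Y : MMSpace} {ε : ℝ≥0} (h : BoxBound X Y ε) : BoxBound Y X ε := by
  obtain ⟨φ, ψ, I₀, hφ, hψ, hI, hI', hd⟩ := h
  refine ⟨ψ, φ, I₀, hψ, hφ, hI, hI', fun s hs t ht => ?_⟩
  rw [abs_sub_comm]
  exact hd s hs t ht

theorem boxDist_comm (X Y : MMSpace) : boxDist X Y = boxDist Y X := by
  unfold boxDist
  apply le_antisymm
  · exact le_iInf₂ fun ε h => iInf₂_le ε h.symm
  · exact le_iInf₂ fun ε h => iInf₂_le ε h.symm

theorem real_I₀ {ε : ℝ≥0} {I₀ : Set I01} (h : 1 - (ε : ℝ≥0∞) ≤ leb I₀) :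
    1 - (ε : ℝ) ≤ leb.real I₀ := by
  have h1 : (1 : ℝ≥0∞) ≤ leb I₀ + ε := tsub_le_iff_right.1 h
  have h2 : (leb I₀ + ε).toReal = leb.real I₀ + ε := by
    rw [ENNReal.toReal_add (measure_ne_top _ _) ENNReal.coe_ne_top]
    rfl
  have h3 := ENNReal.toReal_mono
    (ENNReal.add_ne_top.2 ⟨measure_ne_top leb I₀, ENNReal.coe_ne_top⟩) h1
  rw [ENNReal.toReal_one] at h3
  rw [h2] at h3
  linarith

theorem closure_dist {Z : Type*} [MetricSpace Z] {A : Set Z} {r : ℝ}
    (h : ∀ x ∈ A, ∀ y ∈ A, dist x y ≤ r) : ∀ x ∈ closure A, ∀ y ∈ closure A, dist x y ≤ r := by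
  intro x hx y hy
  have hc : IsClosed {p : Z × Z | dist p.1 p.2 ≤ r} :=
    isClosed_le (continuous_fst.dist continuous_snd) continuous_const
  have h2 : closure (A ×ˢ A) ⊆ {p : Z × Z | dist p.1 p.2 ≤ r} :=
    hc.closure_subset_iff.2 fun p hp => h _ hp.1 _ hp.2
  rw [closure_prod_eq] at h2
  exact h2 (show (x, y) ∈ closure A ×ˢ closure A from ⟨hx, hy⟩)

/-- Transfer of `Q` along a box bound. -/
theorem Q_transfer {X Y : MMSpace} {ε : ℝ≥0} (h : BoxBound X Y ε) {r c : ℝ} (hQ : Q r c X) :
    Q (r + ε) (c - ε) Y := by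
  obtain ⟨φ, ψ, I₀, hφ, hψ, hI, hI', hd⟩ := h
  obtain ⟨S, hS, hSd, hSc⟩ := hQ
  let T : Set I01 := I₀ ∩ φ ⁻¹' S
  have hT : MeasurableSet T := hI.inter (hφ.1 hS)
  refine ⟨closure (ψ '' T), isClosed_closure.measurableSet, ?_, ?_⟩
  · apply closure_dist
    rintro _ ⟨s, hs, rfl⟩ _ ⟨t, ht, rfl⟩
    have h2 := hd s hs.1 t ht.1
    have h3 := hSd _ hs.2 _ ht.2
    rw [abs_le] at h2
    linarith [h2.1]
  · have h1 : leb.real T ≤ Y.μ.real (closure (ψ '' T)) := by
      rw [← hψ.2, measureReal_def, measureReal_def,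
        Measure.map_apply hψ.1 isClosed_closure.measurableSet]
      apply ENNReal.toReal_mono (measure_ne_top _ _)
      apply measure_mono
      intro s hs
      exact subset_closure ⟨s, hs, rfl⟩
    have h2 : X.μ.real S = leb.real (φ ⁻¹' S) := by
      rw [← hφ.2, measureReal_def, measureReal_def, Measure.map_apply hφ.1 hS]
    have h3 := real_I₀ hI'
    have h4 : leb.real I₀ + leb.real (φ ⁻¹' S) ≤ leb.real T + 1 := by
      have h5 := measureReal_union_add_inter (μ := leb) (s := I₀)
        (t := φ ⁻¹' S) (hφ.1 hS)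
      have h6 : leb.real (I₀ ∪ φ ⁻¹' S) ≤ 1 := measureReal_le_one
      linarith
    rw [h2] at hSc
    linarith

/-- `Q` is invariant under the identification. -/
theorem Q_iso {X Y : MMSpace} (h : Iso X Y) (r c : ℝ) : Q r c X ↔ Q r c Y := by
  obtain ⟨f, hf, hmap⟩ := h
  have hsX : MeasurableSet X.μ.support := Measure.isClosed_support.measurableSet
  have hsY : MeasurableSet Y.μ.support := Measure.isClosed_support.measurableSet
  have hX : ∀ S : Set X.carrier,
      (X.μ.comap Subtype.val) ((Subtype.val : X.μ.support → X.carrier) ⁻¹' S) = X.μ S := by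
    intro S
    rw [(MeasurableEmbedding.subtype_coe hsX).comap_apply, Subtype.image_preimage_coe,
      Measure.measure_inter_eq_of_ae (t := X.μ.support) Measure.support_mem_ae]
  have hY : ∀ S : Set Y.carrier,
      (Y.μ.comap Subtype.val) ((Subtype.val : Y.μ.support → Y.carrier) ⁻¹' S) = Y.μ S := by
    intro S
    rw [(MeasurableEmbedding.subtype_coe hsY).comap_apply, Subtype.image_preimage_coe,
      Measure.measure_inter_eq_of_ae (t := Y.μ.support) Measure.support_mem_ae]
  constructor
  · rintro ⟨S, hS, hd, hc⟩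
    let A : Set Y.carrier :=
      Subtype.val '' (f '' ((Subtype.val : X.μ.support → X.carrier) ⁻¹' S))
    refine ⟨closure A, isClosed_closure.measurableSet, closure_dist ?_, lt_of_lt_of_le hc ?_⟩
    · rintro _ ⟨_, ⟨a, ha, rfl⟩, rfl⟩ _ ⟨_, ⟨b, hb, rfl⟩, rfl⟩
      have h1 : dist (f a) (f b) = dist a b := hf.dist_eq a b
      exact h1.le.trans (hd _ ha _ hb)
    · rw [measureReal_def, measureReal_def]
      apply ENNReal.toReal_mono (measure_ne_top _ _)
      rw [← hX S, ← hY (closure A), ← hmap, Measure.map_apply hf.continuous.measurable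
        (isClosed_closure.measurableSet.preimage measurable_subtype_coe)]
      apply measure_mono
      intro a ha
      exact subset_closure ⟨f a, ⟨a, ha, rfl⟩, rfl⟩
  · rintro ⟨S, hS, hd, hc⟩
    have hm : MeasurableSet (f ⁻¹' ((Subtype.val : Y.μ.support → Y.carrier) ⁻¹' S)) :=
      hf.continuous.measurable (hS.preimage measurable_subtype_coe)
    refine ⟨Subtype.val '' (f ⁻¹' ((Subtype.val : Y.μ.support → Y.carrier) ⁻¹' S)),
      (MeasurableEmbedding.subtype_coe hsX).measurableSet_image.2 hm, ?_, ?_⟩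
    · rintro _ ⟨a, ha, rfl⟩ _ ⟨b, hb, rfl⟩
      have h1 : dist (f a) (f b) = dist a b := hf.dist_eq a b
      have h2 : dist (a : X.carrier) (b : X.carrier) = dist a b := rfl
      rw [h2, ← h1]
      exact hd _ ha _ hb
    · refine lt_of_lt_of_eq hc ?_
      rw [measureReal_def, measureReal_def]
      congr 1
      rw [← hY S, ← hmap, Measure.map_apply hf.continuous.measurable
        (hS.preimage measurable_subtype_coe),
        (MeasurableEmbedding.subtype_coe hsX).comap_apply]

/-- The set of classes satisfying `Q`. -/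
def QQ (r c : ℝ) : Set Classes :=
  {q | Quot.lift (Q r c) (fun _ _ h => propext (Q_iso h r c)) q}

theorem mem_QQ (r c : ℝ) (X : MMSpace) : cls X ∈ QQ r c ↔ Q r c X := Iff.rfl

theorem exists_bound {X Y : MMSpace} {e : ℝ} (h : boxDist X Y < ENNReal.ofReal e) :
    ∃ ε : ℝ≥0, (ε : ℝ) < e ∧ BoxBound X Y ε := by
  unfold boxDist at h
  simp only [iInf_lt_iff] at h
  obtain ⟨ε, hε, hlt⟩ := h
  refine ⟨ε, ?_, hε⟩
  have := (ENNReal.lt_ofReal_iff_toReal_lt ENNReal.coe_ne_top).1 hlt
  simpa using this

/-- First family of open sets. -/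
def O1 (R c : ℝ) : Set Classes := {q | ∃ r < R, ∃ c' > c, q ∈ QQ r c'}

theorem isOpen_O1 (R c : ℝ) : IsOpen (O1 R c) := by
  intro X hX
  obtain ⟨r, hr, c', hc', hQ⟩ := hX
  refine ⟨ENNReal.ofReal (min (R - r) (c' - c)), ?_, ?_⟩
  · exact ENNReal.ofReal_pos.2 (lt_min (sub_pos.2 hr) (sub_pos.2 hc'))
  · intro Y hY
    obtain ⟨ε, hε, hb⟩ := exists_bound hY
    have h1 := lt_of_lt_of_le hε (min_le_left _ _)
    have h2 := lt_of_lt_of_le hε (min_le_right _ _)
    exact ⟨r + ε, by linarith, c' - ε, by linarith, Q_transfer hb hQ⟩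

/-- Second family of open sets. -/
def O2 (δ c : ℝ) : Set Classes := {q | ∃ δ' > δ, ∃ c' < c, q ∉ QQ δ' c'}

theorem isOpen_O2 (δ c : ℝ) : IsOpen (O2 δ c) := by
  intro X hX
  obtain ⟨δ', hδ', c', hc', hQ⟩ := hX
  refine ⟨ENNReal.ofReal (min (δ' - δ) (c - c')), ?_, ?_⟩
  · exact ENNReal.ofReal_pos.2 (lt_min (sub_pos.2 hδ') (sub_pos.2 hc'))
  · intro Y hY
    obtain ⟨ε, hε, hb⟩ := exists_bound hY
    have h1 := lt_of_lt_of_le hε (min_le_left _ _)
    have h2 := lt_of_lt_of_le hε (min_le_right _ _)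
    refine ⟨δ' - ε, by linarith, c' + ε, by linarith, ?_⟩
    intro hY'
    apply hQ
    have := Q_transfer hb.symm ((mem_QQ _ _ _).1 hY')
    rw [sub_add_cancel, add_sub_cancel_right] at this
    exact this

/-! ## The examples -/

/-- The parameters of the two-point spaces. -/
noncomputable def par (m k : ℕ) (s : I01) : ℝ := if (s : ℝ) < 1 - 1 / ((m : ℝ) + 2) then 0 else k

theorem measurable_par (m k : ℕ) : Measurable (par m k) := by
  apply Measurable.ite
  · exact measurableSet_lt measurable_subtype_coe measurable_const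
  · exact measurable_const
  · exact measurable_const

/-- The line with mass `1 - 1/(m+2)` at `0` and mass `1/(m+2)` at `k`. -/
noncomputable def two (m k : ℕ) : MMSpace where
  carrier := ℝ
  μ := Measure.map (par m k) leb
  prob := Measure.isProbabilityMeasure_map (measurable_par m k).aemeasurable

/-- The one-point space (the line with the Dirac measure at `0`). -/
noncomputable def star : MMSpace where
  carrier := ℝ
  μ := Measure.dirac 0

theorem isParameter_const {X : MMSpace} {x : X.carrier} (h : X.μ = Measure.dirac x) :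
    IsParameter X (fun _ => x) := by
  refine ⟨measurable_const, ?_⟩
  rw [Measure.map_const, leb_univ, one_smul, h]

theorem alpha_bounds (m : ℕ) : 0 ≤ 1 - 1 / ((m : ℝ) + 2) ∧ 1 - 1 / ((m : ℝ) + 2) ≤ 1 := by
  have h1 : (0 : ℝ) < (m : ℝ) + 2 := by positivity
  have h2 : 1 / ((m : ℝ) + 2) ≤ 1 := by
    rw [div_le_one h1]; linarith [Nat.cast_nonneg (α := ℝ) m]
  have h3 : 0 ≤ 1 / ((m : ℝ) + 2) := by positivity
  constructor <;> linarith

theorem boxBound_two (m k : ℕ) : BoxBound star (two m k) (1 / ((m : ℝ≥0) + 2)) := by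
  obtain ⟨ha, hb⟩ := alpha_bounds m
  refine BoxBound.symm ⟨par m k, fun _ => (0 : ℝ), {s : I01 | (s : ℝ) < 1 - 1 / ((m : ℝ) + 2)},
    ⟨measurable_par m k, rfl⟩, isParameter_const (X := star) rfl,
    measurableSet_lt measurable_subtype_coe measurable_const, ?_, ?_⟩
  · rw [leb_lt hb, ENNReal.ofReal_sub _ (by positivity), ENNReal.ofReal_one]
    apply tsub_le_tsub_left
    rw [← ENNReal.ofReal_coe_nnreal]
    apply ENNReal.ofReal_le_ofReal
    push_cast
    exact le_rfl
  · intro s hs t ht
    have h1 : par m k s = 0 := if_pos hs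
    have h2 : par m k t = 0 := if_pos ht
    change |dist (par m k s) (par m k t) - dist (0 : ℝ) (0 : ℝ)| ≤ _
    rw [h1, h2, dist_self, sub_self, abs_zero]
    exact NNReal.coe_nonneg _

theorem real_lt (m : ℕ) : leb.real {s : I01 | (s : ℝ) < 1 - 1 / ((m : ℝ) + 2)} =
    1 - 1 / ((m : ℝ) + 2) := by
  obtain ⟨ha, hb⟩ := alpha_bounds m
  rw [measureReal_def, leb_lt hb, ENNReal.toReal_ofReal ha]

theorem Q_two {m k : ℕ} {δ c : ℝ} (hδ : 0 ≤ δ) (hc : c < 1 - 1 / ((m : ℝ) + 2)) :
    Q δ c (two m k) := by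
  refine ⟨({0} : Set ℝ), measurableSet_singleton (0 : ℝ), ?_, lt_of_lt_of_le hc ?_⟩
  · intro x hx y hy
    have h1 : x = (0 : ℝ) := hx
    have h2 : y = (0 : ℝ) := hy
    rw [h1, h2]
    exact (dist_self (0 : ℝ)).le.trans hδ
  · rw [← real_lt m]
    change _ ≤ (Measure.map (par m k) leb).real {0}
    rw [measureReal_def, measureReal_def,
      Measure.map_apply (measurable_par m k) (measurableSet_singleton _)]
    apply ENNReal.toReal_mono (measure_ne_top _ _)
    apply measure_mono
    intro s hs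
    exact if_pos hs

theorem not_Q_two {m k : ℕ} {r c : ℝ} (hr : r < k) (hc : 1 - 1 / ((m : ℝ) + 2) < c) :
    ¬ Q r c (two m k) := by
  rintro ⟨S, hS, hd, hm⟩
  change Set ℝ at S
  have hm' : c < leb.real (par m k ⁻¹' S) := by
    change c < (Measure.map (par m k) leb).real S at hm
    rwa [measureReal_def, Measure.map_apply (measurable_par m k) hS] at hm
  have h0 : (0 : ℝ) ∈ S := by
    by_contra h
    have h1 : par m k ⁻¹' S ⊆ {s : I01 | (s : ℝ) < 1 - 1 / ((m : ℝ) + 2)}ᶜ := by
      intro s hs hs'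
      have h2 : par m k s = 0 := if_pos hs'
      exact h (h2 ▸ hs)
    have h2 : leb.real (par m k ⁻¹' S) ≤ 1 - leb.real {s : I01 | (s : ℝ) < 1 - 1 / ((m : ℝ) + 2)} := by
      rw [← probReal_compl_eq_one_sub
        (measurableSet_lt measurable_subtype_coe measurable_const)]
      exact measureReal_mono h1
    rw [real_lt] at h2
    have h3 : 1 / ((m : ℝ) + 2) ≤ 1 / 2 := by
      apply one_div_le_one_div_of_le (by norm_num)
      linarith [Nat.cast_nonneg (α := ℝ) m]
    linarith
  have hk : (k : ℝ) ∈ S := by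
    by_contra h
    have h1 : par m k ⁻¹' S ⊆ {s : I01 | (s : ℝ) < 1 - 1 / ((m : ℝ) + 2)} := by
      intro s hs
      by_contra hs'
      have h2 : par m k s = k := if_neg hs'
      exact h (h2 ▸ hs)
    have h2 := measureReal_mono (μ := leb) h1
    rw [real_lt] at h2
    linarith
  have h1 := hd _ h0 _ hk
  change dist (0 : ℝ) (k : ℝ) ≤ r at h1
  rw [Real.dist_eq, zero_sub, abs_neg, abs_of_nonneg (Nat.cast_nonneg k)] at h1
  linarith

/-- The closed set corresponding to an mm-space. -/
def single (X : MMSpace) : Closeds Classes := ⟨closure {cls X}, isClosed_closure⟩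

theorem single_meets {X : MMSpace} {U : Set Classes} (hU : IsOpen U) :
    ((single X : Set Classes) ∩ U).Nonempty ↔ cls X ∈ U := by
  change (closure {cls X} ∩ U).Nonempty ↔ _
  rw [closure_inter_open_nonempty_iff hU, singleton_inter_nonempty]

theorem eventually_ulift (p : ℕ → Prop) :
    (∀ᶠ i : ULift.{v} ℕ in atTop, p i.down) ↔ ∀ᶠ n in atTop, p n := by
  rw [eventually_atTop, eventually_atTop]
  constructor
  · rintro ⟨a, ha⟩
    exact ⟨a.down, fun b hb => ha ⟨b⟩ hb⟩
  · rintro ⟨a, ha⟩
    exact ⟨⟨a⟩, fun b hb => ha b.down hb⟩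

/-- For fixed `m` the two-point spaces converge to the empty set. -/
theorem converges_bot (m : ℕ) :
    KPConverges (fun i : ULift.{v} ℕ => single (two m i.down)) ⊥ := by
  refine ⟨?_, fun x hx => absurd hx (by simp)⟩
  intro w hw
  exfalso
  obtain ⟨X, rfl⟩ := Quot.exists_rep w
  set c : ℝ := 1 - 1 / ((m : ℝ) + 2) with hc
  have hc1 : c < 1 := by
    have : 0 < 1 / ((m : ℝ) + 2) := by positivity
    linarith
  obtain ⟨x₀⟩ : Nonempty X.carrier := X.μ.nonempty_of_neZero
  obtain ⟨n, hn⟩ : ∃ n : ℕ, (1 + c) / 2 < X.μ.real (Metric.closedBall x₀ n) := by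
    have h1 : Tendsto (fun n : ℕ => X.μ (Metric.closedBall x₀ n)) atTop
        (𝓝 (X.μ (⋃ n : ℕ, Metric.closedBall x₀ n))) :=
      tendsto_measure_iUnion_atTop fun a b hab =>
        Metric.closedBall_subset_closedBall (by exact_mod_cast hab)
    rw [Metric.iUnion_closedBall_nat, measure_univ] at h1
    have h2 := (ENNReal.tendsto_toReal ENNReal.one_ne_top).comp h1
    rw [ENNReal.toReal_one] at h2
    have h3 := h2.eventually (lt_mem_nhds (show (1 + c) / 2 < 1 by linarith))
    exact h3.exists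
  have hmem : cls X ∈ O1 (2 * n + 1) c := by
    refine ⟨2 * n, by linarith, (1 + c) / 2, by change c < (1 + c) / 2; linarith,
      Metric.closedBall x₀ n, Metric.isClosed_closedBall.measurableSet, ?_, hn⟩
    intro x hx y hy
    have := dist_triangle_right x y x₀
    rw [Metric.mem_closedBall] at hx hy
    linarith
  have h1 := hw _ ((isOpen_O1 (2 * n + 1) c).mem_nhds hmem)
  apply h1
  rw [eventually_ulift (fun k => ¬ ((single (two m k) : Set Classes) ∩ O1 (2 * n + 1) c).Nonempty)]
  filter_upwards [eventually_ge_atTop (2 * n + 1)] with k hk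
  rw [single_meets (isOpen_O1 _ _)]
  rintro ⟨r, hr, c', hc', hQ⟩
  refine not_Q_two ?_ hc' ((mem_QQ _ _ _).1 hQ)
  have : (2 * (n : ℝ) + 1) ≤ k := by exact_mod_cast hk
  linarith

theorem eq_dirac {X : MMSpace} {x₀ : X.carrier} (h : X.μ.support ⊆ {x₀}) :
    X.μ = Measure.dirac x₀ := by
  have h0 : X.μ {x₀}ᶜ = 0 :=
    measure_mono_null (compl_subset_compl.2 h) Measure.measure_compl_support
  apply Measure.ext
  intro s hs
  rw [Measure.dirac_apply' _ hs]
  by_cases hx : x₀ ∈ s
  · rw [indicator_of_mem hx, Pi.one_apply, ← prob_compl_eq_zero_iff hs]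
    exact measure_mono_null (compl_subset_compl.2 (singleton_subset_iff.2 hx)) h0
  · rw [indicator_of_notMem hx]
    refine measure_mono_null ?_ h0
    intro y hy hy'
    exact hx (hy' ▸ hy)

/-- For every choice of `k m` the two-point spaces with parameters `m`, `k m` converge to the
one-point space. -/
theorem converges_star (k : ℕ → ℕ) :
    KPConverges (fun i : ULift.{v} ℕ => single (two i.down (k i.down))) (single star) := by
  constructor
  · intro w hw
    obtain ⟨X, rfl⟩ := Quot.exists_rep w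
    -- the support is a point
    have hsub : ∀ x ∈ X.μ.support, ∀ y ∈ X.μ.support, x = y := by
      intro x hx y hy
      by_contra hne
      have hD : 0 < dist x y := dist_pos.2 hne
      set D := dist x y with hDdef
      have hpos : ∀ z ∈ X.μ.support, 0 < X.μ.real (Metric.ball z (D / 4)) := by
        intro z hz
        have h1 := (Measure.mem_support_iff_forall z).1 hz _
          (Metric.ball_mem_nhds z (show 0 < D / 4 by positivity))
        exact ENNReal.toReal_pos h1.ne' (measure_ne_top _ _)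
      set η := min (X.μ.real (Metric.ball x (D / 4))) (X.μ.real (Metric.ball y (D / 4))) with hη
      have hη0 : 0 < η := lt_min (hpos x hx) (hpos y hy)
      have hnQ : ¬ Q (D / 4) (1 - η) X := by
        rintro ⟨S, hS, hd, hm⟩
        have hmiss : ∀ z, η ≤ X.μ.real (Metric.ball z (D / 4)) →
            (S ∩ Metric.ball z (D / 4)).Nonempty := by
          intro z hz
          by_contra hempty
          rw [not_nonempty_iff_eq_empty, ← disjoint_iff_inter_eq_empty] at hempty
          have h1 : X.μ.real S + X.μ.real (Metric.ball z (D / 4)) ≤ 1 := by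
            rw [← measureReal_union hempty Metric.isOpen_ball.measurableSet]
            exact measureReal_le_one
          linarith
        obtain ⟨a, haS, hax⟩ := hmiss x (min_le_left _ _)
        obtain ⟨b, hbS, hby⟩ := hmiss y (min_le_right _ _)
        have h1 := hd a haS b hbS
        rw [Metric.mem_ball] at hax hby
        have h2 : D ≤ dist a x + dist a b + dist b y := by
          have h3 := dist_triangle4 x a b y
          rw [dist_comm x a] at h3
          exact h3
        linarith
      have hmem : cls X ∈ O2 (D / 8) (1 - η / 2) :=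
        ⟨D / 4, by linarith, 1 - η, by linarith, hnQ⟩
      have h1 := hw _ ((isOpen_O2 (D / 8) (1 - η / 2)).mem_nhds hmem)
      apply h1
      rw [eventually_ulift (fun m =>
        ¬ ((single (two m (k m)) : Set Classes) ∩ O2 (D / 8) (1 - η / 2)).Nonempty)]
      obtain ⟨M, hM⟩ := exists_nat_gt (2 / η)
      filter_upwards [eventually_ge_atTop M] with m hm
      rw [single_meets (isOpen_O2 _ _)]
      rintro ⟨δ', hδ', c', hc', hQ⟩
      apply hQ
      rw [mem_QQ]
      apply Q_two (by linarith)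
      have h2 : 2 / η < (m : ℝ) + 2 := by
        have : (M : ℝ) ≤ m := by exact_mod_cast hm
        linarith
      have h3 : 1 / ((m : ℝ) + 2) ≤ η / 2 := by
        rw [div_lt_iff₀ hη0] at h2
        rw [div_le_iff₀ (by positivity)]
        linarith
      linarith
    obtain ⟨x₀, hx₀⟩ := Measure.nonempty_support (NeZero.ne X.μ)
    have hdir : X.μ = Measure.dirac x₀ := eq_dirac fun y hy => hsub y hy x₀ hx₀
    change cls X ∈ closure {cls star}
    rw [mem_closure_iff]
    intro U hU hXU
    obtain ⟨ε, hε, h⟩ := hU X hXU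
    refine ⟨cls star, h star ?_, rfl⟩
    have hb : BoxBound X star 0 := by
      refine ⟨fun _ => x₀, fun _ => (0 : ℝ), univ, isParameter_const hdir,
        isParameter_const (X := star) rfl, MeasurableSet.univ, ?_, ?_⟩
      · rw [leb_univ]; simp
      · intro s _ t _
        change |dist x₀ x₀ - dist (0 : ℝ) (0 : ℝ)| ≤ _
        rw [dist_self, dist_self, sub_self, abs_zero]
        exact NNReal.coe_nonneg _
    have h0 : boxDist X star ≤ ((0 : ℝ≥0) : ℝ≥0∞) := iInf₂_le 0 hb
    exact lt_of_le_of_lt h0 (by simpa using hε)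
  · intro w hw U hU
    obtain ⟨U', hU'U, hU'o, hwU'⟩ := mem_nhds_iff.1 hU
    have hstar : cls star ∈ U' := by
      obtain ⟨z, hz, hz'⟩ := mem_closure_iff.1 (show w ∈ closure {cls star} from hw) U' hU'o hwU'
      rw [mem_singleton_iff] at hz'
      rwa [← hz']
    obtain ⟨ε, hε, h⟩ := hU'o star hstar
    have h1 : ∀ᶠ m : ℕ in atTop, (((1 : ℝ≥0) / ((m : ℝ≥0) + 2) : ℝ≥0) : ℝ≥0∞) < ε := by
      obtain ⟨n, hn⟩ := ENNReal.exists_inv_nat_lt hε.ne'
      filter_upwards [eventually_ge_atTop n] with m hm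
      refine lt_of_le_of_lt ?_ hn
      rw [one_div, ENNReal.coe_inv (by positivity)]
      apply ENNReal.inv_le_inv.2
      have h2 : ((n : ℝ≥0) : ℝ≥0∞) ≤ (((m : ℝ≥0) + 2 : ℝ≥0) : ℝ≥0∞) := by
        rw [ENNReal.coe_le_coe]
        have h3 : (n : ℝ≥0) ≤ m := by exact_mod_cast hm
        exact h3.trans (le_add_of_nonneg_right (by norm_num))
      simpa using h2
    rw [eventually_ulift (fun m => ((single (two m (k m)) : Set Classes) ∩ U).Nonempty)]
    filter_upwards [h1] with m hm
    refine Nonempty.mono (inter_subset_inter_right _ hU'U) ((single_meets hU'o).2 ?_)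
    apply h
    exact lt_of_le_of_lt (iInf₂_le _ (boxBound_two m (k m))) hm

/-- The two closed sets cannot be separated. -/
theorem not_separated (𝒰 𝒱 : Set (Closeds Classes)) (hU : IsOpen[tauK.{v}] 𝒰)
    (hV : IsOpen[tauK.{v}] 𝒱) (hbot : (⊥ : Closeds Classes) ∈ 𝒰) (hstar : single star ∈ 𝒱) :
    (𝒰 ∩ 𝒱).Nonempty := by
  have h1 : ∀ m : ℕ, ∃ k : ℕ, single (two m k) ∈ 𝒰 := by
    intro m
    have h2 := hU (ULift.{v} ℕ) _ ⊥ (converges_bot m) hbot
    obtain ⟨i, hi⟩ := h2.exists
    exact ⟨i.down, hi⟩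
  choose k hk using h1
  have h2 := hV (ULift.{v} ℕ) _ (single star) (converges_star k) hstar
  obtain ⟨i, hi⟩ := h2.exists
  exact ⟨_, hk i.down, hi⟩

/-- The topology `tauK` is not Hausdorff, hence not metrizable. -/
theorem result : ¬ @T2Space (Closeds Classes) tauK.{v} ∧
    ¬ @MetrizableSpace (Closeds Classes) tauK.{v} := by
  have h1 : ¬ @T2Space (Closeds Classes) tauK.{v} := by
    intro h
    have hne : (⊥ : Closeds Classes) ≠ single star := by
      intro h'
      have h2 : cls star ∈ (single star : Set Classes) := subset_closure rfl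
      rw [← h'] at h2
      exact absurd h2 (by simp)
    obtain ⟨𝒰, 𝒱, hU, hV, hb, hs, hd⟩ := @t2_separation _ tauK.{v} h _ _ hne
    obtain ⟨x, hx⟩ := not_separated 𝒰 𝒱 hU hV hb hs
    exact disjoint_left.1 hd hx.1 hx.2
  refine ⟨h1, fun h => h1 ?_⟩
  exact @TopologicalSpace.t2Space_of_metrizableSpace _ tauK.{v} h

end Pool.Agent.Results.MP_3b4475_gt.NotHausdorff
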